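import Pool.Agent.H380.AG.Stm

set_option autoImplicit false

open MeasureTheory Metric Set Filter Topology
open scoped ENNReal RealInnerProductSpace

namespace Pool.Agent.H405.AG

open Pool.Agent.W778.AG Pool.Agent.H380.AG

lemma Pg_cont (n : ℕ) : ∀ k : ℕ, Continuous (Pg n k) ∧ Continuous (Pg n (k + 1)) := by
  intro k
  induction k with
  | zero =>
    refine ⟨?_, ?_⟩
    · have : Pg n 0 = fun _ => (1 : ℝ) := by
        funext t; simp [Pg]
      rw [this]; exact continuous_const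
    · have : Pg n (0 + 1) = fun t => t := by
        funext t; simp [Pg]
      rw [this]; exact continuous_id
  | succ k ih =>
    refine ⟨ih.2, ?_⟩
    have : Pg n (k + 1 + 1) = fun t =>
        ((2 * (k : ℝ) + n) * t * Pg n (k + 1) t - ((k : ℝ) + 1) * Pg n k t) / ((k : ℝ) + n - 1) := by
      funext t; rw [Pg]
    rw [this]
    have h1 := ih.1
    have h2 := ih.2
    fun_prop

/-- the truncated polynomial -/
noncomputable def Qg (n k : ℕ) (t : ℝ) : ℝ := Pg n k (max (-1) (min 1 t))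

lemma Qg_cont (n k : ℕ) : Continuous (Qg n k) := by
  have h := (Pg_cont n k).1
  unfold Qg
  exact h.comp (by fun_prop)

lemma Qg_bdd (n k : ℕ) : ∃ M : ℝ, ∀ t, ‖Qg n k t‖ ≤ M := by
  have h := (Pg_cont n k).1
  obtain ⟨M, hM⟩ := (isCompact_Icc (a := (-1 : ℝ)) (b := 1)).exists_bound_of_continuousOn
    h.continuousOn
  refine ⟨M, fun t => hM _ ⟨le_max_left _ _, max_le (by norm_num) (min_le_left _ _)⟩⟩

lemma Qg_eq {n k : ℕ} {t : ℝ} (h : |t| ≤ 1) : Qg n k t = Pg n k t := by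
  unfold Qg
  rw [min_eq_right (abs_le.1 h).2, max_eq_right (abs_le.1 h).1]

lemma inner_le {n : ℕ} {u v : En n} (hu : ‖u‖ = 1) (hv : ‖v‖ = 1) : |⟪u, v⟫| ≤ 1 := by
  have := abs_real_inner_le_norm u v
  rwa [hu, hv, one_mul] at this

lemma sph_ae {n : ℕ} {μ : Measure (En n)} (h : Sph μ) : ∀ᵐ u ∂μ, ‖u‖ = 1 := by
  have h2 := h.2
  rw [ae_iff]
  have : {a : En n | ¬ ‖a‖ = 1} = (sphere (0 : En n) 1)ᶜ := by
    ext a; simp
  rw [this]; exact h2

lemma fm_eq {n k : ℕ} {μ μ' : Measure (En n)} (h : Sph μ) (h' : Sph μ') :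
    fm n k μ μ' = ∫ u, ∫ v, Qg n k ⟪u, v⟫ ∂μ' ∂μ := by
  unfold fm
  apply integral_congr_ae
  filter_upwards [sph_ae h] with u hu
  apply integral_congr_ae
  filter_upwards [sph_ae h'] with v hv
  rw [Qg_eq (inner_le hu hv)]

theorem key {n k : ℕ} {μ μ' σ : Measure (En n)} (h : Sph μ) (h' : Sph μ') (hσ : Sph σ) {c : ℝ}
    (hc : ∀ u w : En n, ‖u‖ = 1 → ‖w‖ = 1 →
    ∫ y, Pg n k ⟪u, y⟫ * Pg n k ⟪y, w⟫ ∂σ = c * Pg n k ⟪u, w⟫) :
    c * fm n k μ μ' = ∫ y, (∫ u, Qg n k ⟪u, y⟫ ∂μ) * (∫ v, Qg n k ⟪v, y⟫ ∂μ') ∂σ := by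
  haveI := h.1
  haveI := h'.1
  haveI := hσ.1
  obtain ⟨M, hM⟩ := Qg_bdd n k
  have hQ := Qg_cont n k
  have e1 : ∀ y : En n, (∫ u, Qg n k ⟪u, y⟫ ∂μ) * (∫ v, Qg n k ⟪v, y⟫ ∂μ') =
      ∫ z : En n × En n, Qg n k ⟪z.1, y⟫ * Qg n k ⟪z.2, y⟫ ∂(μ.prod μ') := by
    intro y
    rw [integral_prod_mul (fun u : En n => Qg n k ⟪u, y⟫) (fun v : En n => Qg n k ⟪v, y⟫)]
  have e2 : ∫ y, (∫ u, Qg n k ⟪u, y⟫ ∂μ) * (∫ v, Qg n k ⟪v, y⟫ ∂μ') ∂σ =
      ∫ y, ∫ z : En n × En n, Qg n k ⟪z.1, y⟫ * Qg n k ⟪z.2, y⟫ ∂(μ.prod μ') ∂σ := by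
    apply integral_congr_ae
    exact Eventually.of_forall e1
  rw [e2]
  rw [integral_integral_swap]
  · have e3 : ∫ z : En n × En n, ∫ y, Qg n k ⟪z.1, y⟫ * Qg n k ⟪z.2, y⟫ ∂σ ∂(μ.prod μ') =
        ∫ z : En n × En n, c * Qg n k ⟪z.1, z.2⟫ ∂(μ.prod μ') := by
      apply integral_congr_ae
      have a1 : ∀ᵐ z : En n × En n ∂(μ.prod μ'), ‖z.1‖ = 1 :=
        (Measure.quasiMeasurePreserving_fst (μ := μ) (ν := μ')).ae (sph_ae h)
      have a2 : ∀ᵐ z : En n × En n ∂(μ.prod μ'), ‖z.2‖ = 1 :=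
        (Measure.quasiMeasurePreserving_snd (μ := μ) (ν := μ')).ae (sph_ae h')
      filter_upwards [a1, a2] with z hz1 hz2
      rw [Qg_eq (inner_le hz1 hz2), ← hc z.1 z.2 hz1 hz2]
      apply integral_congr_ae
      filter_upwards [sph_ae hσ] with y hy
      rw [Qg_eq (inner_le hz1 hy), Qg_eq (inner_le hz2 hy), real_inner_comm y z.2]
    rw [e3, integral_const_mul, fm_eq h h']
    congr 1
    rw [integral_prod]
    apply Integrable.of_bound (C := M)
    · exact (hQ.comp (by fun_prop)).aestronglyMeasurable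
    · exact Eventually.of_forall fun z => hM _
  · apply Integrable.of_bound (C := M * M)
    · apply Continuous.aestronglyMeasurable
      apply Continuous.mul
      · exact hQ.comp (by fun_prop)
      · exact hQ.comp (by fun_prop)
    · refine Eventually.of_forall fun z => ?_
      simp only [Function.uncurry]
      rw [norm_mul]
      exact mul_le_mul (hM _) (hM _) (norm_nonneg _) ((norm_nonneg _).trans (hM 0))

theorem t_PSD (h1 : S_CONV) (h2 : S_POLAR) (_hB : S_BD) : S_PSD := by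
  intro n k J hn μ a hμ
  obtain ⟨σ, hσ, -⟩ := h2 n (by omega)
  obtain ⟨c, hc0, hc⟩ := h1 n hn σ hσ k
  haveI := hσ.1.1
  obtain ⟨M, hM⟩ := Qg_bdd n k
  have hQ := Qg_cont n k
  have hS : c * (∑ i, ∑ j, a i * a j * fm n k (μ i) (μ j)) =
      ∫ y, (∑ i, a i * ∫ u, Qg n k ⟪u, y⟫ ∂(μ i)) ^ 2 ∂σ := by
    have hint : ∀ i j : Fin J, Integrable (fun y : En n =>
        (∫ u, Qg n k ⟪u, y⟫ ∂(μ i)) * (∫ v, Qg n k ⟪v, y⟫ ∂(μ j))) σ := by
      intro i j
      haveI := (hμ i).1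
      haveI := (hμ j).1
      have hb : ∀ (i : Fin J) (y : En n), ‖∫ u, Qg n k ⟪u, y⟫ ∂(μ i)‖ ≤ M := by
        intro i y
        haveI := (hμ i).1
        have := norm_integral_le_of_norm_le_const (μ := μ i) (f := fun u : En n => Qg n k ⟪u, y⟫)
          (C := M) (Eventually.of_forall fun u => hM _)
        simpa using this
      have hm : ∀ i : Fin J, AEStronglyMeasurable (fun y : En n => ∫ u, Qg n k ⟪u, y⟫ ∂(μ i)) σ := by
        intro i
        haveI := (hμ i).1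
        have hc2 : Continuous (fun p : En n × En n => Qg n k ⟪p.2, p.1⟫) := hQ.comp (by fun_prop)
        exact (hc2.stronglyMeasurable.integral_prod_right'
          (ν := μ i)).aestronglyMeasurable
      apply Integrable.of_bound (C := M * M)
      · exact (hm i).mul (hm j)
      · refine Eventually.of_forall fun y => ?_
        rw [norm_mul]
        exact mul_le_mul (hb i y) (hb j y) (norm_nonneg _) ((norm_nonneg _).trans (hb i y))
    have e : ∀ y : En n, (∑ i, a i * ∫ u, Qg n k ⟪u, y⟫ ∂(μ i)) ^ 2 =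
        ∑ i, ∑ j, a i * a j * ((∫ u, Qg n k ⟪u, y⟫ ∂(μ i)) * (∫ v, Qg n k ⟪v, y⟫ ∂(μ j))) := by
      intro y
      rw [sq, Finset.sum_mul_sum]
      refine Finset.sum_congr rfl fun i _ => Finset.sum_congr rfl fun j _ => ?_
      ring
    simp_rw [e]
    rw [integral_finset_sum]
    · rw [Finset.mul_sum]
      refine Finset.sum_congr rfl fun i _ => ?_
      rw [integral_finset_sum]
      · rw [Finset.mul_sum]
        refine Finset.sum_congr rfl fun j _ => ?_
        rw [integral_const_mul, ← key (hμ i) (hμ j) hσ.1 hc]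
        ring
      · intro j _
        exact (hint i j).const_mul _
    · intro i _
      apply integrable_finset_sum
      intro j _
      exact (hint i j).const_mul _
  have h0 : 0 ≤ c * (∑ i, ∑ j, a i * a j * fm n k (μ i) (μ j)) := by
    rw [hS]
    exact integral_nonneg fun y => sq_nonneg _
  exact nonneg_of_mul_nonneg_right h0 hc0

end Pool.Agent.H405.AG
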